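import Pool.Agent.Helper60.FF.StmtsC

set_option autoImplicit false

namespace Pool.Agent.Helper60.FF

open Polynomial

theorem main_basis_map {F G ι : Type*} [Field F] [Field G] [DecidableEq ι] (φ : F →+* G)
    (s : Finset ι) (v : ι → F) (i : ι) :
    (Lagrange.basis s v i).map φ = Lagrange.basis s (fun j => φ (v j)) i := by
  unfold Lagrange.basis
  rw [Polynomial.map_prod]
  refine Finset.prod_congr rfl fun j _ => ?_
  unfold Lagrange.basisDivisor
  rw [Polynomial.map_mul, Polynomial.map_sub, map_C, map_C, map_X, map_inv₀, map_sub]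

theorem main_interp {F G : Type*} [Field F] [Field G] (φ : F →+* G) (n : ℕ) (c : Fin (n + 1) → F)
    (hc : Function.Injective c) (f : Polynomial G) (hf : f.natDegree ≤ n) :
    f = ∑ l, C (f.eval (φ (c l))) * (Lagrange.basis Finset.univ c l).map φ := by
  have h1 : Set.InjOn (fun l => φ (c l))
      ((Finset.univ : Finset (Fin (n + 1))) : Set (Fin (n + 1))) := by
    intro x _ y _ h
    exact hc (φ.injective h)
  have h2 : f.degree < (Finset.univ : Finset (Fin (n + 1))).card := by
    rw [Finset.card_univ, Fintype.card_fin]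
    refine lt_of_le_of_lt degree_le_natDegree ?_
    exact_mod_cast Nat.lt_succ_of_le hf
  have h3 := Lagrange.eq_interpolate h1 h2
  rw [Lagrange.interpolate_apply] at h3
  calc f = _ := h3
    _ = _ := Finset.sum_congr rfl fun l _ => by rw [main_basis_map]

theorem main_evalC {F G : Type*} [Field F] [Field G] (φ : F →+* G) (a b : F) (L : Polynomial F)
    (τ : G) : ((L.comp (C a + C b * X)).map φ).eval τ = (L.map φ).eval (φ a + φ b * τ) := by
  rw [Polynomial.map_comp, eval_comp, Polynomial.map_add, Polynomial.map_mul, map_C, map_C, map_X,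
    eval_add, eval_mul, eval_C, eval_C, eval_X]

theorem st_MAIN (hR1 : ST_R1) (hM1 : ST_M1) (hM2 : ST_M2) (hEVH : ST_EVH) : ST_MAIN := by
  intro p n hp hPP K
  obtain ⟨c, hc, hne, hrat⟩ := hR1 p n hPP K
  have h0 : ∀ l : Fin (n + 1), ∃ (β : ℂ_[p]) (r : RatFunc K.A), β ≠ 0 ∧ r ≠ 0 ∧
      IsAlgebraic ℚ_[p] β ∧ (l = 0 → β = 1 ∧ r = 1) ∧
      ∀ τ : ℂ_[p], IsAlgebraic ℚ_[p] τ → τ ∉ K.A →
        (K.χ τ).eval (c l : ℂ_[p]) = β * ev K.A τ r * (K.χ τ).eval (c 0 : ℂ_[p]) := by
    intro l
    by_cases hl : l = 0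
    · refine ⟨1, 1, one_ne_zero, one_ne_zero, isAlgebraic_one, fun _ => ⟨rfl, rfl⟩, ?_⟩
      intro τ _ _
      subst hl
      rw [ev, RatFunc.eval_one, one_mul, one_mul]
      rfl
    · obtain ⟨β, r, h1, h2, h3, h4⟩ := hrat l 0
      exact ⟨β, r, h1, h2, h3, fun h => absurd h hl, h4⟩
  choose β r hβ hr halg h01 hval using h0
  obtain ⟨⟨d, hd⟩, hint⟩ := IsLocalization.exist_integer_multiples_of_finite
    (nonZeroDivisors (Polynomial K.A)) r
  have hd0 : d ≠ 0 := nonZeroDivisors.ne_zero hd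
  have hint' : ∀ l, ∃ q : Polynomial K.A, algebraMap (Polynomial K.A) (RatFunc K.A) q =
      algebraMap (Polynomial K.A) (RatFunc K.A) d * r l := by
    intro l
    obtain ⟨q, hq⟩ := hint l
    exact ⟨q, by rw [hq, Algebra.smul_def]⟩
  choose r' hr' using hint'
  have hr'0 : ∀ l, r' l ≠ 0 := by
    intro l h
    have h1 := hr' l
    rw [h, map_zero] at h1
    rcases mul_eq_zero.1 h1.symm with h2 | h2
    · exact hd0 ((map_eq_zero_iff _ (IsFractionRing.injective (Polynomial K.A) (RatFunc K.A))).1 h2)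
    · exact hr l h2
  let c' : Fin (n + 1) → K.A := fun l => c l
  have hc' : Function.Injective c' := fun x y h => Fin.ext (hc h)
  have hint2 : ∀ τ : ℂ_[p], IsAlgebraic ℚ_[p] τ → τ ∉ K.A → K.χ τ =
      ∑ l : Fin (n + 1), C ((K.χ τ).eval (c l : ℂ_[p])) *
        (Lagrange.basis Finset.univ c' l).map K.A.subtype := by
    intro τ h1 h2
    exact main_interp K.A.subtype n c' hc' (K.χ τ) (K.χ0 τ h1 h2).2
  have hβA : ∀ l, β l ∈ K.A := by
    refine hM2 ℂ_[p] K.A n c' β r' hc' (h01 0 rfl).1 hr'0 ?_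
    intro a b
    refine hM1 p n hPP K (RatFunc.C a + RatFunc.C b * RatFunc.X) (RatFunc.C (c 0)) d _ hd0 ?_ ?_
    · intro j
      rw [finsetSum_coeff, ← mem_algebraicClosure_iff]
      refine sum_mem fun l _ => ?_
      rw [coeff_C_mul, coeff_map]
      refine mul_mem ?_ ?_
      · exact mem_algebraicClosure_iff.2 (halg l)
      · exact mem_algebraicClosure_iff.2 (K.alg _ (SetLike.coe_mem _))
    · intro τ h1 h2
      obtain ⟨e, he1, he2, he3, he4, -⟩ := hEVH p K.A K.acl τ h2
      have hc0 : ev K.A τ (RatFunc.C (c 0)) = (c 0 : ℂ_[p]) := by rw [← he1, he3]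
      have hcx : ev K.A τ (RatFunc.C a + RatFunc.C b * RatFunc.X) =
          K.A.subtype a + K.A.subtype b * τ := by
        rw [← he1, map_add, map_mul, he3, he3, he2]
        rfl
      have hrl : ∀ l, ((r' l).map K.A.subtype).eval τ =
          d.eval₂ K.A.subtype τ * ev K.A τ (r l) := by
        intro l
        rw [eval_map, ← he4, ← he4, ← he1, ← map_mul, hr' l]
      rw [hc0, hcx]
      refine ⟨hne 0 τ h1 h2, ?_⟩
      conv_lhs => rw [hint2 τ h1 h2]
      rw [eval_finsetSum, eval_finsetSum, Finset.mul_sum, Finset.sum_mul]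
      refine Finset.sum_congr rfl fun l _ => ?_
      rw [eval_mul, eval_mul, eval_C, eval_C, Polynomial.map_mul, eval_mul, main_evalC,
        hval l τ h1 h2, hrl l]
      ring
  refine ⟨∑ l, C (RatFunc.C (⟨β l, hβA l⟩ : K.A) * r l) *
    (Lagrange.basis Finset.univ c' l).map RatFunc.C, ?_, ?_, ?_⟩
  · intro h
    have h1 := congrArg (Polynomial.eval (RatFunc.C (c' 0))) h
    rw [eval_finsetSum, eval_zero, Finset.sum_eq_single 0] at h1
    · rw [eval_mul, eval_C, eval_map_apply, Lagrange.eval_basis_self hc'.injOn (Finset.mem_univ _),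
        map_one, mul_one] at h1
      rcases mul_eq_zero.1 h1 with h2 | h2
      · have h3 : (⟨β 0, hβA 0⟩ : K.A) = 0 := by
          rwa [map_eq_zero_iff _ RatFunc.C_injective] at h2
        exact hβ 0 (congrArg Subtype.val h3)
      · exact hr 0 h2
    · intro l _ hl
      rw [eval_mul, eval_map_apply, Lagrange.eval_basis_of_ne hl (Finset.mem_univ _), map_zero,
        mul_zero]
    · intro h2
      exact absurd (Finset.mem_univ _) h2
  · refine natDegree_sum_le_of_forall_le _ _ fun l _ => ?_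
    refine (natDegree_C_mul_le _ _).trans (natDegree_map_le.trans ?_)
    rw [Lagrange.natDegree_basis hc'.injOn (Finset.mem_univ _), Finset.card_univ, Fintype.card_fin]
    exact le_refl _
  · intro τ h1 h2
    obtain ⟨e, he1, he2, he3, he4, -⟩ := hEVH p K.A K.acl τ h2
    refine ⟨(K.χ τ).eval (c 0 : ℂ_[p]), hne 0 τ h1 h2, ?_⟩
    intro j
    conv_lhs => rw [hint2 τ h1 h2]
    rw [← he1, finsetSum_coeff, finsetSum_coeff, map_sum, Finset.mul_sum]
    refine Finset.sum_congr rfl fun l _ => ?_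
    rw [coeff_C_mul, coeff_C_mul, coeff_map, coeff_map, map_mul, map_mul, he3, he3, he1,
      hval l τ h1 h2, Subfield.coe_subtype]
    ring

end Pool.Agent.Helper60.FF
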