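import Pool.Agent.Helper80.FF.MB

set_option autoImplicit false

namespace Pool.Agent.Helper24.FF

open Pool.Agent.Helper64.CT Pool.Agent.Helper64.DT Pool.Agent.Helper64.FL
open Pool.Agent.Helper64.HG (Ovl Model Circ IC HellyCircle ChordModel)

theorem m0_fun {V : Type} (p h k : V) (ph : p ≠ h) (pk : p ≠ k) (hk : h ≠ k) (x y z : ℤ) :
    ∃ a : V → ℤ, a p = x ∧ a h = y ∧ a k = z := by
  classical
  refine ⟨fun v => if v = p then x else if v = h then y else z, ?_, ?_, ?_⟩
  · exact if_pos rfl
  · have h1 : (if h = p then x else if h = h then y else z) = y := by
      rw [if_neg (fun e => ph e.symm), if_pos rfl]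
    exact h1
  · have h1 : (if k = p then x else if k = h then y else z) = z := by
      rw [if_neg (fun e => pk e.symm), if_neg (fun e => hk e.symm)]
    exact h1

theorem m0_fun2 {V : Type} (h k : V) (hk : h ≠ k) (y z : ℤ) :
    ∃ a : V → ℤ, a h = y ∧ a k = z := by
  classical
  refine ⟨fun v => if v = h then y else z, if_pos rfl, ?_⟩
  have h1 : (if k = h then y else z) = z := if_neg (fun e => hk e.symm)
  exact h1

theorem st_M0 : ST_M0 := by
  intro V G h k hhk hadj
  refine ⟨?_, ?_⟩
  · obtain ⟨a, ah, ak⟩ := m0_fun2 h k hhk (-2) 2
    obtain ⟨b, bh, bk⟩ := m0_fun2 h k hhk 0 4
    refine ⟨by simp, by simp, hhk, a, b, -1, 1, 3, ?_, by unfold Od; norm_num,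
      by unfold Od; norm_num, by unfold Od; norm_num, by norm_num, by norm_num, ?_, ?_⟩
    · constructor
      · intro v hv
        simp only [Set.mem_insert_iff, Set.mem_singleton_iff] at hv
        rcases hv with e | e <;> rw [e]
        · rw [ah]; norm_num
        · rw [ak]; norm_num
      · intro v hv
        simp only [Set.mem_insert_iff, Set.mem_singleton_iff] at hv
        rcases hv with e | e <;> rw [e]
        · rw [bh]; norm_num
        · rw [bk]; norm_num
      · intro v hv
        simp only [Set.mem_insert_iff, Set.mem_singleton_iff] at hv
        rcases hv with e | e <;> rw [e]
        · rw [ah, bh]; norm_num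
        · rw [ak, bk]; norm_num
      · intro u hu v hv huv
        simp only [Set.mem_insert_iff, Set.mem_singleton_iff] at hu hv
        rcases hu with e | e <;> rcases hv with f | f <;> rw [e, f] at huv <;> rw [e, f]
        · exact absurd rfl huv
        · rw [ah, bh, ak, bk]; norm_num
        · rw [ah, bh, ak, bk]; norm_num
        · exact absurd rfl huv
      · intro u hu v hv huv
        simp only [Set.mem_insert_iff, Set.mem_singleton_iff] at hu hv
        rcases hu with e | e <;> rcases hv with f | f <;> rw [e, f] at huv <;> rw [e, f]
        · exact absurd rfl huv
        · rw [ah, bh, ak, bk]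
          refine iff_of_false hadj ?_
          unfold bt
          intro hc; apply hc
          constructor <;> intro hd <;> omega
        · rw [ah, bh, ak, bk]
          refine iff_of_false (fun e => hadj e.symm) ?_
          unfold bt
          intro hc; apply hc
          constructor <;> intro hd <;> omega
        · exact absurd rfl huv
    · intro y hy
      simp only [Set.mem_insert_iff, Set.mem_singleton_iff] at hy
      rcases hy with e | e <;> rw [e]
      · rw [ah, bh]
        unfold bt
        refine iff_of_true ?_ rfl
        intro hc
        omega
      · rw [ak, bk]
        unfold bt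
        refine iff_of_false ?_ (fun e => hhk e.symm)
        intro hc; apply hc
        constructor <;> intro hd <;> omega
    · intro y hy
      simp only [Set.mem_insert_iff, Set.mem_singleton_iff] at hy
      rcases hy with e | e <;> rw [e]
      · rw [ah, bh]
        unfold bt
        refine iff_of_false ?_ hhk
        intro hc; apply hc
        constructor <;> intro hd <;> omega
      · rw [ak, bk]
        unfold bt
        refine iff_of_true ?_ rfl
        intro hc
        omega
  · intro p ph pk php npk
    have kh : k ≠ h := fun e => hhk e.symm
    have hp : h ≠ p := fun e => ph e.symm
    have kp : k ≠ p := fun e => pk e.symm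
    obtain ⟨a, ap, ah, ak⟩ := m0_fun p h k ph pk hhk 0 2 4
    obtain ⟨b, bp, bh, bk⟩ := m0_fun p h k ph pk hhk 8 10 6
    refine ⟨by simp, by simp, by simp, hhk, ph, pk, a, b, -1, 1, 3, 5, ?_,
      by unfold Od; norm_num, by unfold Od; norm_num, by unfold Od; norm_num,
      by unfold Od; norm_num, by norm_num, by norm_num, by norm_num, ?_, ?_, ?_⟩
    · constructor
      · intro v hv
        simp only [Set.mem_insert_iff, Set.mem_singleton_iff] at hv
        rcases hv with e | e | e <;> rw [e]
        · rw [ap]; norm_num
        · rw [ah]; norm_num
        · rw [ak]; norm_num
      · intro v hv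
        simp only [Set.mem_insert_iff, Set.mem_singleton_iff] at hv
        rcases hv with e | e | e <;> rw [e]
        · rw [bp]; norm_num
        · rw [bh]; norm_num
        · rw [bk]; norm_num
      · intro v hv
        simp only [Set.mem_insert_iff, Set.mem_singleton_iff] at hv
        rcases hv with e | e | e <;> rw [e]
        · rw [ap, bp]; norm_num
        · rw [ah, bh]; norm_num
        · rw [ak, bk]; norm_num
      · intro u hu v hv huv
        simp only [Set.mem_insert_iff, Set.mem_singleton_iff] at hu hv
        rcases hu with e | e | e <;> rcases hv with f | f | f <;> rw [e, f] at huv <;> rw [e, f]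
        · exact absurd rfl huv
        · rw [ap, bp, ah, bh]; norm_num
        · rw [ap, bp, ak, bk]; norm_num
        · rw [ap, bp, ah, bh]; norm_num
        · exact absurd rfl huv
        · rw [ah, bh, ak, bk]; norm_num
        · rw [ap, bp, ak, bk]; norm_num
        · rw [ah, bh, ak, bk]; norm_num
        · exact absurd rfl huv
      · intro u hu v hv huv
        simp only [Set.mem_insert_iff, Set.mem_singleton_iff] at hu hv
        rcases hu with e | e | e <;> rcases hv with f | f | f <;> rw [e, f] at huv <;> rw [e, f]
        · exact absurd rfl huv
        · rw [ap, bp, ah, bh]
          refine iff_of_true php.symm ?_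
          unfold bt
          intro hc
          omega
        · rw [ap, bp, ak, bk]
          refine iff_of_false (fun e => npk e.symm) ?_
          unfold bt
          intro hc; apply hc
          constructor <;> intro hd <;> omega
        · rw [ap, bp, ah, bh]
          refine iff_of_true php ?_
          unfold bt
          intro hc
          omega
        · exact absurd rfl huv
        · rw [ah, bh, ak, bk]
          refine iff_of_false hadj ?_
          unfold bt
          intro hc; apply hc
          constructor <;> intro hd <;> omega
        · rw [ap, bp, ak, bk]
          refine iff_of_false npk ?_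
          unfold bt
          intro hc; apply hc
          constructor <;> intro hd <;> omega
        · rw [ah, bh, ak, bk]
          refine iff_of_false (fun e => hadj e.symm) ?_
          unfold bt
          intro hc; apply hc
          constructor <;> intro hd <;> omega
        · exact absurd rfl huv
    · intro y hy
      simp only [Set.mem_insert_iff, Set.mem_singleton_iff] at hy
      rcases hy with e | e | e <;> rw [e]
      · rw [ap, bp]
        unfold bt
        refine iff_of_true ?_ rfl
        intro hc
        omega
      · rw [ah, bh]
        unfold bt
        refine iff_of_false ?_ hp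
        intro hc; apply hc
        constructor <;> intro hd <;> omega
      · rw [ak, bk]
        unfold bt
        refine iff_of_false ?_ kp
        intro hc; apply hc
        constructor <;> intro hd <;> omega
    · intro y hy
      simp only [Set.mem_insert_iff, Set.mem_singleton_iff] at hy
      rcases hy with e | e | e <;> rw [e]
      · rw [ap, bp]
        unfold bt
        refine iff_of_false ?_ ph
        intro hc; apply hc
        constructor <;> intro hd <;> omega
      · rw [ah, bh]
        unfold bt
        refine iff_of_true ?_ rfl
        intro hc
        omega
      · rw [ak, bk]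
        unfold bt
        refine iff_of_false ?_ kh
        intro hc; apply hc
        constructor <;> intro hd <;> omega
    · intro y hy
      simp only [Set.mem_insert_iff, Set.mem_singleton_iff] at hy
      rcases hy with e | e | e <;> rw [e]
      · rw [ap, bp]
        unfold bt
        refine iff_of_false ?_ pk
        intro hc; apply hc
        constructor <;> intro hd <;> omega
      · rw [ah, bh]
        unfold bt
        refine iff_of_false ?_ hhk
        intro hc; apply hc
        constructor <;> intro hd <;> omega
      · rw [ak, bk]
        unfold bt
        refine iff_of_true ?_ rfl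
        intro hc
        omega

end Pool.Agent.Helper24.FF
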