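import Pool.Agent.Helper80.FF.MB

set_option autoImplicit false

namespace Pool.Agent.Helper24.FF

open Pool.Agent.Helper64.CT Pool.Agent.Helper64.DT Pool.Agent.Helper64.FL
open Pool.Agent.Helper64.HG (Ovl Model Circ IC HellyCircle ChordModel)

theorem st_M1 (hINS : ST_INS) : ST_M1 := by
  intro V G S h k v x hF hx hadj
  obtain ⟨hh, hk, hv, hhk, hvh, hvk, a, b, g0, g1, g2, g3, hM, o0, o1, o2, o3, l01, l12, l23,
    s01, s12, s23⟩ := hF
  obtain ⟨i1, i2, i3⟩ := hINS V G S a b x g0 g1 hM hx o0 o1 (by omega) (by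
    intro y hy
    exact (s01 y hy).trans (hadj y hy).symm)
  have xh : x ≠ h := fun e => hx (e ▸ hh)
  have xk : x ≠ k := fun e => hx (e ▸ hk)
  have yx : ∀ y ∈ S, y ≠ x := fun y hy e => hx (e ▸ hy)
  refine ⟨Set.mem_insert_of_mem _ hh, Set.mem_insert_of_mem _ hk, Set.mem_insert _ _, hhk, xh, xk,
    up a x g0, up b x g1, 2 * g1 + -1, 2 * g1 + 1, 2 * g2 + 1, 2 * g3 + 1, i1,
    mb_od (Or.inr rfl), mb_od (Or.inl rfl), mb_od (Or.inl rfl), mb_od (Or.inl rfl),
    by omega, by omega, by omega, ?_, ?_, ?_⟩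
  · refine mb_up i2 i3 o1 o1 (Or.inr rfl) (Or.inl rfl) mb_rfl ?_ ?_
    · intro y hy
      exact iff_of_false (yx y hy) id
    · unfold bt
      constructor
      · intro _; rfl
      · intro _ hc
        omega
  · refine mb_up i2 i3 o1 o2 (Or.inl rfl) (Or.inl rfl) s12 ?_ ?_
    · intro y hy
      exact Iff.rfl
    · unfold bt
      constructor
      · intro hc; exact absurd (by constructor <;> intro hd <;> omega) hc
      · intro e; exact absurd e xh
  · refine mb_up i2 i3 o2 o3 (Or.inl rfl) (Or.inl rfl) s23 ?_ ?_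
    · intro y hy
      exact Iff.rfl
    · unfold bt
      constructor
      · intro hc; exact absurd (by constructor <;> intro hd <;> omega) hc
      · intro e; exact absurd e xk

end Pool.Agent.Helper24.FF
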