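import Pool.Agent.Helper80.FF.MB

set_option autoImplicit false

namespace Pool.Agent.Helper24.FF

open Pool.Agent.Helper64.CT Pool.Agent.Helper64.DT Pool.Agent.Helper64.FL
open Pool.Agent.Helper64.HG (Ovl Model Circ IC HellyCircle ChordModel)

theorem st_M2 (hINS : ST_INS) (hMIR : ST_MIR) : ST_M2 := by
  intro V G S h k v x hF hx hadj
  obtain ⟨hh, hk, hv, hhk, hvh, hvk, a, b, g0, g1, g2, g3, hM, o0, o1, o2, o3, l01, l12, l23,
    s01, s12, s23⟩ := hF
  have s02 : SE S a b g0 g2 (fun y => y = v ∨ y = h) := by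
    refine mb_tr s01 s12 ?_
    intro y _
    constructor
    · rintro (rfl | rfl)
      · intro hc; exact hvh (hc.1 rfl)
      · intro hc; exact hvh (hc.2 rfl).symm
    · intro hc
      by_contra hd
      push Not at hd
      exact hc (iff_of_false hd.1 hd.2)
  have s03 : SE S a b g0 g3 (fun y => y = v ∨ y = h ∨ y = k) := by
    refine mb_tr s02 s23 ?_
    intro y _
    constructor
    · rintro (rfl | rfl | rfl)
      · intro hc; exact hvk (hc.1 (Or.inl rfl))
      · intro hc; exact hhk (hc.1 (Or.inr rfl))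
      · intro hc
        rcases hc.2 rfl with e | e
        · exact hvk e.symm
        · exact hhk e.symm
    · intro hc
      by_contra hd
      push Not at hd
      exact hc (iff_of_false (fun he => he.elim hd.1 hd.2.1) hd.2.2)
  obtain ⟨i1, i2, i3⟩ := hINS V G S a b x g0 g3 hM hx o0 o3 (by omega) (by
    intro y hy
    exact (s03 y hy).trans (hadj y hy).symm)
  obtain ⟨j1, j2⟩ := hMIR V G (insert x S) _ _ i1
  have xh : x ≠ h := fun e => hx (e ▸ hh)
  have xk : x ≠ k := fun e => hx (e ▸ hk)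
  have yx : ∀ y ∈ S, y ≠ x := fun y hy e => hx (e ▸ hy)
  have oo : Odd g0 ∧ Odd g1 ∧ Odd g2 ∧ Odd g3 := by
    unfold Od at o0 o1 o2 o3
    refine ⟨Int.odd_iff.2 o0, Int.odd_iff.2 o1, Int.odd_iff.2 o2, Int.odd_iff.2 o3⟩
  refine ⟨Set.mem_insert_of_mem _ hk, Set.mem_insert_of_mem _ hh, Set.mem_insert _ _, hhk.symm,
    xk, xh, fun u => - up a x g0 u, fun u => - up b x g3 u, -(2 * g3 + 1), -(2 * g3 + -1),
    -(2 * g2 + 1), -(2 * g1 + 1), j1,
    mb_odn (mb_od (Or.inl rfl)), mb_odn (mb_od (Or.inr rfl)), mb_odn (mb_od (Or.inl rfl)),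
    mb_odn (mb_od (Or.inl rfl)), by omega, ?_, by omega, ?_, ?_, ?_⟩
  · unfold Od at o2 o3
    omega
  · refine mb_neg j2 ?_
    refine mb_up i2 i3 o3 o3 (Or.inr rfl) (Or.inl rfl) mb_rfl ?_ ?_
    · intro y hy
      exact iff_of_false (yx y hy) id
    · unfold bt
      constructor
      · intro _; rfl
      · intro _ hc
        omega
  · refine mb_neg j2 ?_
    refine mb_up i2 i3 o2 o3 (Or.inl rfl) (Or.inr rfl) s23 ?_ ?_
    · intro y hy
      exact Iff.rfl
    · unfold bt
      unfold Od at o2 o3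
      constructor
      · intro hc; exact absurd (by constructor <;> intro hd <;> omega) hc
      · intro e; exact absurd e xk
  · refine mb_neg j2 ?_
    refine mb_up i2 i3 o1 o2 (Or.inl rfl) (Or.inl rfl) s12 ?_ ?_
    · intro y hy
      exact Iff.rfl
    · unfold bt
      unfold Od at o1 o2 o3
      constructor
      · intro hc; exact absurd (by constructor <;> intro hd <;> omega) hc
      · intro e; exact absurd e xh

end Pool.Agent.Helper24.FF
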