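import Pool.Agent.Helper80.FF.MB

set_option autoImplicit false

namespace Pool.Agent.Helper24.FF

open Pool.Agent.Helper64.CT Pool.Agent.Helper64.DT Pool.Agent.Helper64.FL
open Pool.Agent.Helper64.HG (Ovl Model Circ IC HellyCircle ChordModel)

theorem st_M3 (hINS : ST_INS) : ST_M3 := by
  intro V G S h k v x hF hx hadj
  obtain ⟨hh, hk, hv, hhk, hvh, hvk, a, b, g0, g1, g2, g3, hM, o0, o1, o2, o3, l01, l12, l23,
    s01, s12, s23⟩ := hF
  have s02 : SE S a b g0 g2 (fun y => y = v ∨ y = h) := by
    refine mb_tr s01 s12 ?_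
    intro y _
    constructor
    · rintro (rfl | rfl)
      · intro hc; exact hvh (hc.1 rfl)
      · intro hc; exact hvh (hc.2 rfl).symm
    · intro hc
      by_contra hd
      push Not at hd
      exact hc (iff_of_false hd.1 hd.2)
  obtain ⟨i1, _, _⟩ := hINS V G S a b x g0 g2 hM hx o0 o2 (by omega) (by
    intro y hy
    exact (s02 y hy).trans (hadj y hy).symm)
  exact ⟨_, _, i1⟩

end Pool.Agent.Helper24.FF
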