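import Pool.Agent.Helper80.FF.MB

set_option autoImplicit false

namespace Pool.Agent.Helper24.FF

open Pool.Agent.Helper64.CT Pool.Agent.Helper64.DT Pool.Agent.Helper64.FL
open Pool.Agent.Helper64.HG (Ovl Model Circ IC HellyCircle ChordModel)

theorem st_M4 (hINS : ST_INS) (hSCL : ST_SCL) : ST_M4 := by
  intro V G S h k x hE hx hadj
  obtain ⟨hh, hk, hhk, a, b, g1, g2, g3, hM, o1, o2, o3, l12, l23, s12, s23⟩ := hE
  obtain ⟨c1, c2⟩ := hSCL V G S a b hM
  have odd1 : Od (2 * g1 + -1) := mb_od (Or.inr rfl)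
  have odd2 : Od (2 * g1 + 1) := mb_od (Or.inl rfl)
  have odd3 : Od (2 * g2 + 1) := mb_od (Or.inl rfl)
  have odd4 : Od (2 * g3 + 1) := mb_od (Or.inl rfl)
  have t12 : SE S (fun v => 2 * a v) (fun v => 2 * b v) (2 * g1 + 1) (2 * g2 + 1)
      (fun y => y = h) := by
    intro y hy
    rw [c2 y hy g1 1 o1 (Or.inl rfl), c2 y hy g2 1 o2 (Or.inl rfl)]
    exact s12 y hy
  have t23 : SE S (fun v => 2 * a v) (fun v => 2 * b v) (2 * g2 + 1) (2 * g3 + 1)
      (fun y => y = k) := by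
    intro y hy
    rw [c2 y hy g2 1 o2 (Or.inl rfl), c2 y hy g3 1 o3 (Or.inl rfl)]
    exact s23 y hy
  obtain ⟨i1, i2, i3⟩ := hINS V G S (fun v => 2 * a v) (fun v => 2 * b v) x (2 * g1 + -1)
    (2 * g1 + 1) c1 hx odd1 odd2 (by omega) (by
    intro y hy
    rw [c2 y hy g1 (-1) o1 (Or.inr rfl), c2 y hy g1 1 o1 (Or.inl rfl)]
    constructor
    · intro hc; exact absurd Iff.rfl hc
    · intro hc; exact absurd hc (hadj y hy))
  have xh : x ≠ h := fun e => hx (e ▸ hh)
  have xk : x ≠ k := fun e => hx (e ▸ hk)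
  have yx : ∀ y ∈ S, y ≠ x := fun y hy e => hx (e ▸ hy)
  refine ⟨Set.mem_insert_of_mem _ hh, Set.mem_insert_of_mem _ hk, Set.mem_insert _ _, hhk, xh, xk,
    _, _, 2 * (2 * g1 + 1) + -1, 2 * (2 * g1 + 1) + 1,
    2 * (2 * g2 + 1) + 1, 2 * (2 * g3 + 1) + 1, i1,
    mb_od (Or.inr rfl), mb_od (Or.inl rfl), mb_od (Or.inl rfl), mb_od (Or.inl rfl),
    by omega, by omega, by omega, ?_, ?_, ?_⟩
  · refine mb_up i2 i3 odd2 odd2 (Or.inr rfl) (Or.inl rfl) mb_rfl ?_ ?_
    · intro y hy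
      exact iff_of_false (yx y hy) id
    · unfold bt
      constructor
      · intro _; rfl
      · intro _ hc
        omega
  · refine mb_up i2 i3 odd2 odd3 (Or.inl rfl) (Or.inl rfl) t12 ?_ ?_
    · intro y hy
      exact Iff.rfl
    · unfold bt
      constructor
      · intro hc; exact absurd (by constructor <;> intro hd <;> omega) hc
      · intro e; exact absurd e xh
  · refine mb_up i2 i3 odd3 odd4 (Or.inl rfl) (Or.inl rfl) t23 ?_ ?_
    · intro y hy
      exact Iff.rfl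
    · unfold bt
      constructor
      · intro hc; exact absurd (by constructor <;> intro hd <;> omega) hc
      · intro e; exact absurd e xk

end Pool.Agent.Helper24.FF
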