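import Pool.Agent.Helper80.FF.MB

set_option autoImplicit false

namespace Pool.Agent.Helper24.FF

open Pool.Agent.Helper64.CT Pool.Agent.Helper64.DT Pool.Agent.Helper64.FL
open Pool.Agent.Helper64.HG (Ovl Model Circ IC HellyCircle ChordModel)

theorem st_M5 (hINS : ST_INS) : ST_M5 := by
  intro V G S h k x hE hx hadj
  obtain ⟨hh, hk, hhk, a, b, g1, g2, g3, hM, o1, o2, o3, l12, l23, s12, s23⟩ := hE
  have s13 : SE S a b g1 g3 (fun y => y = h ∨ y = k) := by
    refine mb_tr s12 s23 ?_
    intro y _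
    constructor
    · rintro (rfl | rfl)
      · intro hc; exact hhk (hc.1 rfl)
      · intro hc; exact hhk (hc.2 rfl).symm
    · intro hc
      by_contra hd
      push Not at hd
      exact hc (iff_of_false hd.1 hd.2)
  obtain ⟨i1, i2, i3⟩ := hINS V G S a b x g1 g3 hM hx o1 o3 (by omega) (by
    intro y hy
    exact (s13 y hy).trans (hadj y hy).symm)
  have xh : x ≠ h := fun e => hx (e ▸ hh)
  have xk : x ≠ k := fun e => hx (e ▸ hk)
  have yx : ∀ y ∈ S, y ≠ x := fun y hy e => hx (e ▸ hy)
  have l1 : 2 * g1 + -1 < 2 * g1 + 1 := by omega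
  have l2 : 2 * g1 + 1 < 2 * g2 + 1 := by omega
  have l3 : 2 * g2 + 1 < 2 * g3 + -1 := by
    unfold Od at o2 o3
    omega
  have e1 : SE (insert x S) (up a x g1) (up b x g3) (2 * g1 + -1) (2 * g1 + 1)
      (fun y => y = x) := by
    refine mb_up i2 i3 o1 o1 (Or.inr rfl) (Or.inl rfl) mb_rfl ?_ ?_
    · intro y hy
      exact iff_of_false (yx y hy) id
    · unfold bt
      constructor
      · intro _; rfl
      · intro _ hc
        omega
  have e2 : SE (insert x S) (up a x g1) (up b x g3) (2 * g1 + 1) (2 * g2 + 1)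
      (fun y => y = h) := by
    refine mb_up i2 i3 o1 o2 (Or.inl rfl) (Or.inl rfl) s12 ?_ ?_
    · intro y hy
      exact Iff.rfl
    · unfold bt
      unfold Od at o1 o2 o3
      constructor
      · intro hc; exact absurd (by constructor <;> intro hd <;> omega) hc
      · intro e; exact absurd e xh
  have e3 : SE (insert x S) (up a x g1) (up b x g3) (2 * g2 + 1) (2 * g3 + -1)
      (fun y => y = k) := by
    refine mb_up i2 i3 o2 o3 (Or.inl rfl) (Or.inr rfl) s23 ?_ ?_
    · intro y hy
      exact Iff.rfl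
    · unfold bt
      unfold Od at o1 o2 o3
      constructor
      · intro hc; exact absurd (by constructor <;> intro hd <;> omega) hc
      · intro e; exact absurd e xk
  refine ⟨⟨Set.mem_insert_of_mem _ hh, Set.mem_insert_of_mem _ hk, Set.mem_insert _ _, hhk, xh,
    xk, _, _, _, _, _, _, i1, mb_od (Or.inr rfl), mb_od (Or.inl rfl), mb_od (Or.inl rfl),
    mb_od (Or.inr rfl), l1, l2, l3, e1, e2, e3⟩,
    ⟨Set.mem_insert_of_mem _ hh, Set.mem_insert_of_mem _ hk, hhk, _, _, _, _, _, i1,
    mb_od (Or.inl rfl), mb_od (Or.inl rfl), mb_od (Or.inr rfl), l2, l3, e2, e3⟩⟩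

end Pool.Agent.Helper24.FF
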