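import Pool.Agent.Helper80.FF.MB

set_option autoImplicit false

namespace Pool.Agent.Helper24.FF

open Pool.Agent.Helper64.CT Pool.Agent.Helper64.DT Pool.Agent.Helper64.FL
open Pool.Agent.Helper64.HG (Ovl Model Circ IC HellyCircle ChordModel)

theorem st_M6 (hINS : ST_INS) : ST_M6 := by
  intro V G S h k x hE hx hadj
  obtain ⟨hh, hk, hhk, a, b, g1, g2, g3, hM, o1, o2, o3, l12, l23, s12, s23⟩ := hE
  obtain ⟨i1, _, _⟩ := hINS V G S a b x g1 g2 hM hx o1 o2 (by omega) (by
    intro y hy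
    exact (s12 y hy).trans (hadj y hy).symm)
  exact ⟨_, _, i1⟩

end Pool.Agent.Helper24.FF
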