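import Pool.Agent.Helper80.FF.MB

set_option autoImplicit false

namespace Pool.Agent.Helper24.FF

open Pool.Agent.Helper64.CT Pool.Agent.Helper64.DT Pool.Agent.Helper64.FL
open Pool.Agent.Helper64.HG (Ovl Model Circ IC HellyCircle ChordModel)

theorem st_M7 (hMIR : ST_MIR) : ST_M7 := by
  intro V G S h k
  refine ⟨?_, ?_, ?_⟩
  · intro v hF
    obtain ⟨hh, hk, hv, hhk, hvh, hvk, a, b, g0, g1, g2, g3, hM, o0, o1, o2, o3, l01, l12, l23,
      s01, s12, s23⟩ := hF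
    exact ⟨hh, hk, hhk, a, b, g1, g2, g3, hM, o1, o2, o3, l12, l23, s12, s23⟩
  · intro hE
    obtain ⟨hh, hk, hhk, a, b, g1, g2, g3, hM, o1, o2, o3, l12, l23, s12, s23⟩ := hE
    obtain ⟨j1, j2⟩ := hMIR V G S _ _ hM
    exact ⟨hk, hh, hhk.symm, _, _, -g3, -g2, -g1, j1, mb_odn o3, mb_odn o2, mb_odn o1,
      by omega, by omega, mb_neg j2 s23, mb_neg j2 s12⟩
  · intro hE
    obtain ⟨hh, hk, hhk, a, b, g1, g2, g3, hM, o1, o2, o3, l12, l23, s12, s23⟩ := hE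
    exact ⟨a, b, hM⟩

end Pool.Agent.Helper24.FF
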