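import Pool.Agent.Helper24.FF.Stmts

set_option autoImplicit false

namespace Pool.Agent.Helper24.FF

open Pool.Agent.Helper64.CT Pool.Agent.Helper64.DT Pool.Agent.Helper64.FL
open Pool.Agent.Helper64.HG (Ovl Model Circ IC HellyCircle ChordModel)

theorem ph_run (hH1 : ST_H1) {V : Type} (G : SimpleGraph V) (h : V) (N : List V) :
    ∀ (S : Set V) (v : V), F1 G S h v → IPt G (v :: N) → (∀ x ∈ N, x ∉ S) →
      (∀ x ∈ N, ∀ y ∈ S, y ≠ h → y ≠ v → ¬ G.Adj x y) → CE G (S ∪ LS N) := by
  induction N with
  | nil =>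
    intro S v hF _ _ _
    obtain ⟨_, _, _, a, b, g0, g1, g2, hM, _⟩ := hF
    have e : S ∪ LS ([] : List V) = S := by
      ext x
      simp [LS]
    rw [e]
    exact ⟨a, b, hM⟩
  | cons x N ih =>
    intro S v hF hip hS hn
    have hip' : (∀ z ∈ x :: N, v ≠ z) ∧ (∀ b ∈ (x :: N).head?, G.Adj v b) ∧
      (∀ z ∈ (x :: N).tail, ¬ G.Adj v z) ∧ IPt G (x :: N) := hip
    obtain ⟨h1, h2, h3, h4⟩ := hip'
    have hx : x ∉ S := hS x List.mem_cons_self
    have hvx : G.Adj v x := h2 x (by simp)
    have hF' : F1 G (insert x S) h x := hH1.2 V G S h v x hF hx hvx.symm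
      (hn x List.mem_cons_self)
    have h4' : (∀ z ∈ N, x ≠ z) ∧ (∀ b ∈ N.head?, G.Adj x b) ∧
      (∀ z ∈ N.tail, ¬ G.Adj x z) ∧ IPt G N := h4
    have key := ih (insert x S) x hF' h4 (by
      intro z hz hc
      rcases Set.mem_insert_iff.1 hc with e | e
      · exact h4'.1 z hz e.symm
      · exact hS z (List.mem_cons_of_mem _ hz) e) (by
      intro z hz y hy yh yx
      rcases Set.mem_insert_iff.1 hy with e | e
      · exact absurd e yx
      · by_cases hyv : y = v
        · subst hyv
          intro hc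
          exact h3 z hz hc.symm
        · exact hn z (List.mem_cons_of_mem _ hz) y e yh hyv)
    have e : S ∪ LS (x :: N) = insert x S ∪ LS N := by
      ext z
      simp only [LS, Set.mem_union, Set.mem_setOf_eq, List.mem_cons, Set.mem_insert_iff]
      tauto
    rw [e]
    exact key

theorem st_PH (hH1 : ST_H1) : ST_PH := by
  intro V G h M hip hM
  cases M with
  | nil =>
    have e : (insert h (LS ([] : List V)) : Set V) = {h} := by
      ext x
      simp [LS]
    rw [e]
    refine ⟨fun _ => 0, fun _ => 2, ?_⟩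
    constructor
    · intro v _; rfl
    · intro v _; rfl
    · intro v _; norm_num
    · intro u hu v hv huv
      exact absurd (hu.trans hv.symm) huv
    · intro u hu v hv huv
      exact absurd (hu.trans hv.symm) huv
  | cons v N =>
    have hvh : v ≠ h := fun e => hM (e ▸ List.mem_cons_self)
    have hip' : (∀ z ∈ N, v ≠ z) ∧ (∀ b ∈ N.head?, G.Adj v b) ∧
      (∀ z ∈ N.tail, ¬ G.Adj v z) ∧ IPt G N := hip
    have key := ph_run hH1 G h N {v, h} v (hH1.1 V G h v hvh) hip (by
      intro x hx hc
      rcases hc with e | e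
      · exact hip'.1 x hx e.symm
      · exact hM (List.mem_cons_of_mem _ (e ▸ hx))) (by
      intro x _ y hy yh yv
      rcases hy with e | e
      · exact absurd e yv
      · exact absurd e yh)
    have e : (insert h (LS (v :: N)) : Set V) = {v, h} ∪ LS N := by
      ext z
      simp only [LS, Set.mem_union, Set.mem_setOf_eq, List.mem_cons, Set.mem_insert_iff,
        Set.mem_singleton_iff]
      tauto
    rw [e]
    exact key

end Pool.Agent.Helper24.FF
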