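import Pool.Agent.Helper24.FF.Stmts

/-! MP_866009_co, part F: auxiliary lemmas for the modules M0, ..., M7. -/

set_option autoImplicit false

namespace Pool.Agent.Helper24.FF

open Pool.Agent.Helper64.CT Pool.Agent.Helper64.DT Pool.Agent.Helper64.FL
open Pool.Agent.Helper64.HG (Ovl Model Circ IC HellyCircle ChordModel)

variable {V : Type}

/-- transfer of a separation to the model with one more chord -/
theorem mb_up {S : Set V} {a b a' b' : V → ℤ} {x : V} {s t : ℤ}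
    (h2 : ∀ v ∈ S, ∀ g e : ℤ, Od g → (e = 1 ∨ e = -1) →
      (bt (a' v) (b' v) (2 * g + e) ↔ bt (a v) (b v) g))
    (h3 : ∀ g : ℤ, (bt (a' x) (b' x) g ↔ bt (2 * s) (2 * t) g))
    {g g' e e' : ℤ} {P P' : V → Prop} (hg : Od g) (hg' : Od g') (he : e = 1 ∨ e = -1)
    (he' : e' = 1 ∨ e' = -1) (hP : SE S a b g g' P) (hPP : ∀ y ∈ S, (P' y ↔ P y))
    (hx : (¬ (bt (2 * s) (2 * t) (2 * g + e) ↔ bt (2 * s) (2 * t) (2 * g' + e'))) ↔ P' x) :
    SE (insert x S) a' b' (2 * g + e) (2 * g' + e') P' := by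
  intro y hy
  rcases Set.mem_insert_iff.1 hy with rfl | hy
  · rw [h3, h3]; exact hx
  · rw [h2 y hy g e hg he, h2 y hy g' e' hg' he', hPP y hy]
    exact hP y hy

/-- no separation of a gap from itself -/
theorem mb_rfl {S : Set V} {a b : V → ℤ} {g : ℤ} : SE S a b g g (fun _ => False) := by
  intro y _
  simp

theorem mb_tr {S : Set V} {a b : V → ℤ} {g g' g'' : ℤ} {P Q R : V → Prop}
    (h1 : SE S a b g g' P) (h2 : SE S a b g' g'' Q)
    (hR : ∀ y ∈ S, (R y ↔ ¬ (P y ↔ Q y))) : SE S a b g g'' R := by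
  intro y hy
  rw [hR y hy, ← h1 y hy, ← h2 y hy]
  tauto

theorem mb_od {g e : ℤ} (he : e = 1 ∨ e = -1) : Od (2 * g + e) := by
  unfold Od
  omega

theorem mb_neg {S : Set V} {a b a' b' : V → ℤ}
    (h : ∀ v : V, ∀ g : ℤ, (bt (a' v) (b' v) (- g) ↔ bt (a v) (b v) g))
    {g g' : ℤ} {P : V → Prop} (hP : SE S a b g g' P) : SE S a' b' (-g') (-g) P := by
  intro y hy
  rw [h, h, ← hP y hy]
  tauto

theorem mb_odn {g : ℤ} (hg : Od g) : Od (-g) := by
  unfold Od at *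
  omega

end Pool.Agent.Helper24.FF
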