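import Pool.Agent.Helper24.FF.Stmts

set_option autoImplicit false

namespace Pool.Agent.Helper24.FF

open Pool.Agent.Helper64.CT Pool.Agent.Helper64.DT Pool.Agent.Helper64.FL
open Pool.Agent.Helper64.HG (Ovl Model Circ IC HellyCircle ChordModel)

theorem st_WDF (hWRO : ST_WRO) : ST_WDF := by
  intro V G hW
  obtain ⟨h, r, M, hip, hlen, hhr, hhM, hrM, hadj, hcov, _, hcon⟩ := hW
  have hR : Rim G r M := ⟨hip, hlen, hrM, hadj⟩
  have tri := (hWRO V G r).2 M hR
  have mem : ∀ x, x ≠ h → x ∈ r :: M := by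
    intro x hx
    rcases hcov x with e | e | e
    · exact absurd e hx
    · rw [e]; exact List.mem_cons_self
    · exact List.mem_cons_of_mem _ e
  intro a b c d hab hac hbc had hbd hcd
  exfalso
  by_cases ha : a = h
  · subst ha
    exact hcon c b d hbc.symm hbd hcd hac.ne' hab.ne' had.ne' ⟨hac, hab, had⟩
  · by_cases hb : b = h
    · subst hb
      exact hcon c a d hac.symm had hcd hbc.ne' hab.ne hbd.ne' ⟨hbc, hab.symm, hbd⟩
    · by_cases hc : c = h
      · have hd : d ≠ h := fun e => hcd (hc.trans e.symm)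
        exact tri a b d (mem a ha) (mem b hb) (mem d hd) ⟨hab, hbd, had⟩
      · exact tri a b c (mem a ha) (mem b hb) (mem c hc) ⟨hab, hbc, hac⟩

end Pool.Agent.Helper24.FF
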